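import Pool.Agent.Helper64.PC.Frc

/-!
# Module SV1: the patterns of parities belong to small ground model sets
-/

namespace Pool.Agent.Helper91.PC

open Pool.Agent.Helper64.PC Set

variable {K : Type}

theorem sv1_dec_mono {p q : Sil K} (h : q ≤ p) {ξ : K} {N : ℕ} {b : Bool} (hp : p.Dec ξ N b) :
    q.Dec ξ N b := by
  obtain ⟨h1, h2⟩ := hp
  have hval : ∀ z < N, q.val ξ z = p.val ξ z := by
    intro z hz
    obtain ⟨c, hc⟩ := Option.ne_none_iff_exists'.1 (h1 z hz)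
    rw [hc]
    exact h ξ z c hc
  refine ⟨fun z hz => by rw [hval z hz]; exact h1 z hz, ?_⟩
  rw [← h2]
  unfold Sil.par
  congr 2
  apply Finset.filter_congr
  intro z hz
  rw [hval z (Finset.mem_range.1 hz)]

theorem sv1_dec_uniq {p : Sil K} {ξ : K} {N : ℕ} {b b' : Bool} (h : p.Dec ξ N b)
    (h' : p.Dec ξ N b') : b = b' := h.2.symm.trans h'.2

open Classical in
theorem sv1_dec_exists (q : Sil K) (ξ : K) (N : ℕ) : ∃ r ≤ q, ∃ b, r.Dec ξ N b := by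
  let Z : Finset (K × ℕ) :=
    ((Finset.range N).filter (fun z => q.val ξ z = none)).image (fun z => (ξ, z))
  have hZ : ∀ η z, (η, z) ∈ Z ↔ η = ξ ∧ z < N ∧ q.val ξ z = none := by
    intro η z
    simp only [Z, Finset.mem_image, Finset.mem_filter, Finset.mem_range, Prod.mk.injEq]
    constructor
    · rintro ⟨z', ⟨h1, h2⟩, h3, h4⟩
      subst h4
      exact ⟨h3.symm, h1, h2⟩
    · rintro ⟨h1, h2, h3⟩
      exact ⟨z, ⟨h2, h3⟩, h1.symm, rfl⟩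
  refine ⟨q.fill Z (fun _ => false), ?_, (q.fill Z (fun _ => false)).par ξ N, ?_, rfl⟩
  · intro η z b hb
    have hn : (η, z) ∉ Z := by
      rw [hZ]
      rintro ⟨rfl, -, h3⟩
      rw [h3] at hb
      cases hb
    show (if (η, z) ∈ Z then some false else q.val η z) = some b
    rw [if_neg hn]
    exact hb
  · intro z hz
    show (if (ξ, z) ∈ Z then some false else q.val ξ z) ≠ none
    by_cases h : (ξ, z) ∈ Z
    · rw [if_pos h]
      simp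
    · rw [if_neg h]
      intro h0
      exact h ((hZ ξ z).2 ⟨rfl, hz, h0⟩)

/-- the set of `t` at which the `k`-th parity is `b` -/
def sv1X {p₀ : Sil K} (D : GoodData (Sil K) p₀) (ξ : ℕ → ℕ → K) (k : ℕ) (b : Bool) :
    D.I → Set (Sil K) := fun t => {r | r.Dec (ξ (D.π t) k) (D.n k t) b}

theorem sv1_fd {p₀ : Sil K} (D : GoodData (Sil K) p₀) (ξ : ℕ → ℕ → K) (k : ℕ) (b : Bool)
    (t : D.I) (p : Sil K) :
    Fd (sv1X D ξ k b t) p ↔ ∀ q ≤ p, ∃ r ≤ q, r.Dec (ξ (D.π t) k) (D.n k t) b :=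
  fd_iff (fun _ _ h hq => sv1_dec_mono hq h)

theorem sv1_clash {p₀ : Sil K} (D : GoodData (Sil K) p₀) (ξ : ℕ → ℕ → K) (k : ℕ) {b b' : Bool}
    {p : Sil K} (hp : p ≤ p₀) (h : D.U.W (sv1X D ξ k b) p) (h' : D.U.W (sv1X D ξ k b') p) :
    b = b' := by
  by_contra hne
  refine D.U.contra hp h h' ?_
  intro t q _ h1 h2
  obtain ⟨r, hr, hr'⟩ := (sv1_fd D ξ k b t q).1 h1 q le_rfl
  obtain ⟨s, hs, hs'⟩ := (sv1_fd D ξ k b' t q).1 h2 r hr
  exact hne (sv1_dec_uniq (sv1_dec_mono hs hr') hs')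

theorem sv1_total1 {p₀ : Sil K} (D : GoodData (Sil K) p₀) (ξ : ℕ → ℕ → K) (k : ℕ)
    {q : Sil K} (hq : q ≤ p₀) : ∃ r ≤ q, ∃ b, D.U.W (sv1X D ξ k b) r := by
  have hd : ∀ t, ∀ s ≤ q, ∃ r ≤ s, Fd (sv1X D ξ k true t) r ∨ Fd (sv1X D ξ k false t) r := by
    intro t s _
    obtain ⟨r, hr, b, hb⟩ := sv1_dec_exists s (ξ (D.π t) k) (D.n k t)
    refine ⟨r, hr, ?_⟩
    cases b
    · right
      exact Fd.of_mem (a := r) hb le_rfl
    · left
      exact Fd.of_mem (a := r) hb le_rfl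
  obtain ⟨r, hr, h | h⟩ := D.U.ultra (sv1X D ξ k true) (sv1X D ξ k false) q hq hd
  · exact ⟨r, hr, true, h⟩
  · exact ⟨r, hr, false, h⟩

theorem sv1_total {p₀ : Sil K} (D : GoodData (Sil K) p₀) (ξ : ℕ → ℕ → K) (m : ℕ)
    {q : Sil K} (hq : q ≤ p₀) :
    ∃ r ≤ q, ∃ a : ℕ → Bool, ∀ k < m, D.U.W (sv1X D ξ k (a k)) r := by
  induction m with
  | zero => exact ⟨q, le_rfl, fun _ => false, fun k hk => absurd hk (Nat.not_lt_zero k)⟩
  | succ m ih =>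
    obtain ⟨r, hr, a, ha⟩ := ih
    obtain ⟨s, hs, b, hb⟩ := sv1_total1 D ξ m (hr.trans hq)
    refine ⟨s, hs.trans hr, Function.update a m b, fun k hk => ?_⟩
    rcases Nat.lt_succ_iff_lt_or_eq.1 hk with hk | rfl
    · rw [Function.update_of_ne (Nat.ne_of_lt hk)]
      exact D.U.mono _ _ _ (ha k hk) hs
    · rw [Function.update_self]
      exact hb

/-- the decisions of the fusion -/
def sv1V {p₀ : Sil K} (D : GoodData (Sil K) p₀) (ξ : ℕ → ℕ → K) (i : ℕ) (a : ℕ → Bool)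
    (q : Sil K) : Prop :=
  ∀ k, i ^ 2 ≤ k → k < (i + 1) ^ 2 → D.U.W (sv1X D ξ k (a k)) q

/-- matching at `k` -/
def sv1M {p₀ : Sil K} (D : GoodData (Sil K) p₀) (ξ : ℕ → ℕ → K) (k : ℕ) (t : D.I)
    (r : Sil K) : Prop :=
  D.n k t ≠ 0 ∧ ∃ b, r.Dec (ξ (D.π t) k) (D.n k t) b ∧ D.U.W (sv1X D ξ k b) r

/-- no matching at `k` -/
def sv1N {p₀ : Sil K} (D : GoodData (Sil K) p₀) (ξ : ℕ → ℕ → K) (k : ℕ) (t : D.I)
    (r : Sil K) : Prop :=
  D.n k t = 0 ∨ ∃ b, r.Dec (ξ (D.π t) k) (D.n k t) b ∧ D.U.W (sv1X D ξ k (!b)) r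

theorem sv1M_mono {p₀ : Sil K} (D : GoodData (Sil K) p₀) (ξ : ℕ → ℕ → K) (k : ℕ) (t : D.I)
    {r s : Sil K} (h : s ≤ r) (hM : sv1M D ξ k t r) : sv1M D ξ k t s := by
  obtain ⟨h0, b, h1, h2⟩ := hM
  exact ⟨h0, b, sv1_dec_mono h h1, D.U.mono _ _ _ h2 h⟩

theorem sv1N_mono {p₀ : Sil K} (D : GoodData (Sil K) p₀) (ξ : ℕ → ℕ → K) (k : ℕ) (t : D.I)
    {r s : Sil K} (h : s ≤ r) (hM : sv1N D ξ k t r) : sv1N D ξ k t s := by
  rcases hM with h0 | ⟨b, h1, h2⟩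
  · exact Or.inl h0
  · exact Or.inr ⟨b, sv1_dec_mono h h1, D.U.mono _ _ _ h2 h⟩

theorem sv1_MN {p₀ : Sil K} (D : GoodData (Sil K) p₀) (ξ : ℕ → ℕ → K) (k : ℕ) (t : D.I)
    {r : Sil K} (hr : r ≤ p₀) (hM : sv1M D ξ k t r) (hN : sv1N D ξ k t r) : False := by
  obtain ⟨h0, b, h1, h2⟩ := hM
  rcases hN with h3 | ⟨c, h3, h4⟩
  · exact h0 h3
  · obtain rfl := sv1_dec_uniq h1 h3
    have := sv1_clash D ξ k hr h2 h4
    cases b <;> simp at this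

theorem sv1_MorN {p₀ : Sil K} (D : GoodData (Sil K) p₀) (ξ : ℕ → ℕ → K) (k : ℕ) (t : D.I)
    {q : Sil K} (hq : q ≤ p₀) : ∃ r ≤ q, sv1M D ξ k t r ∨ sv1N D ξ k t r := by
  by_cases h0 : D.n k t = 0
  · exact ⟨q, le_rfl, Or.inr (Or.inl h0)⟩
  obtain ⟨r, hr, b, hb⟩ := sv1_total1 D ξ k hq
  obtain ⟨s, hs, c, hc⟩ := sv1_dec_exists r (ξ (D.π t) k) (D.n k t)
  refine ⟨s, hs.trans hr, ?_⟩
  have hb' := D.U.mono _ _ _ hb hs
  by_cases hbc : c = b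
  · left
    exact ⟨h0, c, hc, by rw [hbc]; exact hb'⟩
  · right
    refine Or.inr ⟨c, hc, ?_⟩
    have : (!c) = b := by
      cases b <;> cases c <;> simp_all
    rw [this]
    exact hb'

/-- the name of the least `m` at which there is no matching -/
def sv1Y {p₀ : Sil K} (D : GoodData (Sil K) p₀) (ξ : ℕ → ℕ → K) {q₀ : Sil K} (hq₀ : q₀ ≤ p₀) :
    FName (Sil K) q₀ D.I ℕ where
  V t m r := (∀ k < m, sv1M D ξ k t r) ∧ sv1N D ξ m t r
  mono := by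
    rintro t m p q ⟨h1, h2⟩ hq
    exact ⟨fun k hk => sv1M_mono D ξ k t hq (h1 k hk), sv1N_mono D ξ m t hq h2⟩
  total := by
    intro t p hp
    obtain ⟨K₀, hK⟩ := D.fin t
    -- induction: either a value below `m` is decided or all `k < m` match
    have key : ∀ m : ℕ, ∃ r ≤ p, (∀ k < m, sv1M D ξ k t r) ∨
        ∃ m' < m, (∀ k < m', sv1M D ξ k t r) ∧ sv1N D ξ m' t r := by
      intro m
      induction m with
      | zero => exact ⟨p, le_rfl, Or.inl fun k hk => absurd hk (Nat.not_lt_zero k)⟩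
      | succ m ih =>
        obtain ⟨r, hr, h | ⟨m', hm', h⟩⟩ := ih
        · obtain ⟨s, hs, hM | hN⟩ := sv1_MorN D ξ m t (q := r) ((hr.trans hp).trans hq₀)
          · refine ⟨s, hs.trans hr, Or.inl fun k hk => ?_⟩
            rcases Nat.lt_succ_iff_lt_or_eq.1 hk with hk | rfl
            · exact sv1M_mono D ξ k t hs (h k hk)
            · exact hM
          · exact ⟨s, hs.trans hr, Or.inr ⟨m, Nat.lt_succ_self m,
              fun k hk => sv1M_mono D ξ k t hs (h k hk), hN⟩⟩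
        · exact ⟨r, hr, Or.inr ⟨m', hm'.trans (Nat.lt_succ_self m), h⟩⟩
    obtain ⟨r, hr, h | ⟨m', _, h⟩⟩ := key (K₀ + 1)
    · exact absurd hK (h K₀ (Nat.lt_succ_self _)).1
    · exact ⟨r, hr, m', h⟩
  uniq := by
    rintro t m m' p hp ⟨h1, h2⟩ ⟨h3, h4⟩
    rcases Nat.lt_trichotomy m m' with h | h | h
    · exact (sv1_MN D ξ m t (hp.trans hq₀) (h3 m h) h2).elim
    · exact h
    · exact (sv1_MN D ξ m' t (hp.trans hq₀) (h1 m' h) h4).elim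

theorem sv1_large {p₀ : Sil K} (D : GoodData (Sil K) p₀) (ξ : ℕ → ℕ → K) {q₀ : Sil K}
    (hq₀ : q₀ ≤ p₀) (m : ℕ) :
    D.U.W (fun t => {r | ∃ a, (sv1Y D ξ hq₀).V t a r ∧ m ≤ a}) q₀ := by
  refine D.U.dense _ _ fun q hq => ?_
  obtain ⟨r, hr, a, ha⟩ := sv1_total D ξ m (hq.trans hq₀)
  have hr0 : r ≤ p₀ := (hr.trans hq).trans hq₀
  have h1 := D.U.all hr0 m ha
  have h2 : D.U.W (fun t => {_r : Sil K | ∀ k < m, Fd {_r : Sil K | 0 < D.n k t} _r}) r :=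
    D.U.all (X := fun k t => {_r : Sil K | 0 < D.n k t}) hr0 m
      (fun k _ => D.U.mono _ _ _ (D.large (fun _ => 0) k) hr0)
  refine ⟨r, hr, D.U.inter _ _ _ r hr0 h1 h2 ?_⟩
  intro t s hs h3 h4 s' hs'
  obtain ⟨u, hu, v, hv, huv⟩ := h3 s' hs'
  obtain ⟨u', hu', v', hv', huv'⟩ := h4 u (hu.trans hs')
  have hu0 : u' ≤ p₀ := ((((hu'.trans hu).trans hs').trans hs).trans hr0)
  have huq : u' ≤ q₀ := ((((hu'.trans hu).trans hs').trans hs).trans hr).trans hq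
  obtain ⟨w, hw, c, hc⟩ := (sv1Y D ξ hq₀).total t u' huq
  refine ⟨w, (hw.trans hu').trans hu, w, ⟨c, hc, ?_⟩, le_rfl⟩
  by_contra hlt
  have hcm : c < m := Nat.lt_of_not_le hlt
  -- at `c` there is a match
  have hF := (hv c hcm).mono (q := w) ((hw.trans hu').trans huv)
  have hF2 := (hv' c hcm).mono (q := w) (hw.trans huv')
  rw [fd_const] at hF2
  obtain ⟨x, hx, hx'⟩ := (sv1_fd D ξ c (a c) t w).1 hF w le_rfl
  have hxr : x ≤ r := ((((hx.trans hw).trans hu').trans hu).trans hs').trans hs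
  refine sv1_MN D ξ c t (r := x) (hxr.trans hr0) ⟨Nat.pos_iff_ne_zero.1 hF2, a c, hx',
    D.U.mono _ _ _ (ha c hcm) hxr⟩ (sv1N_mono D ξ c t hx hc.2)

theorem st_sv1 (hG : ST_good) (hF : ST_fusion) : ST_sv1 := by
  intro K p₀ D ξ
  obtain ⟨q₀, hq₀, S, hS, hdec⟩ := hF K (fun _ => ℕ → Bool) (sv1V D ξ) p₀
    (fun i a q r h hr k hk hk' => D.U.mono _ _ _ (h k hk hk') hr)
    (fun i q hq => by
      obtain ⟨r, hr, a, ha⟩ := sv1_total D ξ ((i + 1) ^ 2) hq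
      exact ⟨r, hr, a, fun k _ hk => ha k hk⟩)
  obtain ⟨p, hp, f, hf⟩ := (hG (Sil K) p₀ D).2 q₀ hq₀ (sv1Y D ξ hq₀) (sv1_large D ξ hq₀)
  refine ⟨p, hp.trans hq₀, f, S, hS, ?_⟩
  refine D.U.up (hp.trans hq₀) hf ?_
  intro t q hq h1 r hr
  obtain ⟨s, hs, v, ⟨m, hm, hem⟩, hsv⟩ := h1 r hr
  have hms : (sv1Y D ξ hq₀).V t m s := (sv1Y D ξ hq₀).mono _ _ _ _ hm hsv
  have hsq : s ≤ q₀ := ((hs.trans hr).trans hq).trans hp
  -- decide finitely many blocks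
  have key : ∀ j : ℕ, ∃ s' ≤ s, ∀ i < j, ∃ a ∈ S i, sv1V D ξ i a s' := by
    intro j
    induction j with
    | zero => exact ⟨s, le_rfl, fun i hi => absurd hi (Nat.not_lt_zero i)⟩
    | succ j ih =>
      obtain ⟨s', hs', h⟩ := ih
      obtain ⟨s'', hs'', a, ha, ha'⟩ := hdec j s' (hs'.trans hsq)
      refine ⟨s'', hs''.trans hs', fun i hi => ?_⟩
      rcases Nat.lt_succ_iff_lt_or_eq.1 hi with hi | rfl
      · obtain ⟨b, hb, hb'⟩ := h i hi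
        exact ⟨b, hb, fun k hk hk' => D.U.mono _ _ _ (hb' k hk hk') hs''⟩
      · exact ⟨a, ha, ha'⟩
  obtain ⟨s', hs', hall⟩ := key (D.e f t)
  refine ⟨s', hs'.trans hs, s', ?_, le_rfl⟩
  intro i hi
  have hie : i < D.e f t := by
    have h5 : i + 1 ≤ (i + 1) ^ 2 := Nat.le_self_pow (by norm_num) _
    omega
  obtain ⟨a, ha, hV⟩ := hall i hie
  refine ⟨a, ha, fun k hk hk' => ?_⟩
  have hkm : k < m := by omega
  obtain ⟨_, b, hb, hb'⟩ := sv1M_mono D ξ k t hs' (hms.1 k hkm)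
  have : b = a k := sv1_clash D ξ k (hs'.trans (hsq.trans hq₀)) hb' (hV k hk hk')
  rw [← this]
  exact hb

end Pool.Agent.Helper91.PC
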