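import Pool.Agent.Helper76.PC.Stmts

/-!
Module EDEL: deletion of a vertex of an embedded configuration.
-/

set_option autoImplicit false

namespace Pool.Agent.Helper76.PC

open Finset

/-- the modified record -/
def edel_md (y r : Vx) : Vx :=
  bif memB y.id r.nb then ⟨r.id, r.sd, r.lo - 1, r.hi - 1, remv y.id r.nb⟩
  else bif (!(full y) || memB r.id y.nb) && xor r.sd y.sd && !(full r) then
    ⟨r.id, r.sd, max (r.lo - 1) (lenN r.nb), r.hi, r.nb⟩ else r

theorem edel_mem (y : Vx) (K : Cfg) (r' : Vx) (h : r' ∈ delC y K) :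
    ∃ r ∈ K, r.id ≠ y.id ∧ r' = edel_md y r := by
  induction K with
  | nil => simp [delC] at h
  | cons r K ih =>
    unfold delC at h
    rcases hb : Nat.beq r.id y.id with _ | _
    · rw [hb, cond_false] at h
      rcases List.mem_cons.mp h with h | h
      · refine ⟨r, by simp, ?_, h⟩
        intro he
        have : Nat.beq r.id y.id = true := by
          rw [he]
          exact Nat.beq_refl _
        rw [hb] at this
        exact Bool.noConfusion this
      · obtain ⟨q, hq, h1, h2⟩ := ih h
        exact ⟨q, List.mem_cons_of_mem _ hq, h1, h2⟩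
    · rw [hb, cond_true] at h
      obtain ⟨q, hq, h1, h2⟩ := ih h
      exact ⟨q, List.mem_cons_of_mem _ hq, h1, h2⟩

theorem edel_mem' (y : Vx) (K : Cfg) (r : Vx) (hr : r ∈ K) (hn : r.id ≠ y.id) :
    edel_md y r ∈ delC y K := by
  induction K with
  | nil => simp at hr
  | cons q K ih =>
    unfold delC
    rcases hb : Nat.beq q.id y.id with _ | _
    · rw [cond_false]
      rcases List.mem_cons.mp hr with h | h
      · subst h
        exact List.mem_cons.mpr (Or.inl rfl)
      · exact List.mem_cons.mpr (Or.inr (ih h))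
    · rw [cond_true]
      rcases List.mem_cons.mp hr with h | h
      · subst h
        exact absurd (Nat.eq_of_beq_eq_true hb) hn
      · exact ih h

theorem edel_id (y r : Vx) : (edel_md y r).id = r.id := by
  unfold edel_md
  rcases memB y.id r.nb with _ | _
  · rw [cond_false]
    rcases ((!(full y) || memB r.id y.nb) && xor r.sd y.sd && !(full r)) with _ | _
    · rfl
    · rfl
  · rfl

theorem edel_sd (y r : Vx) : (edel_md y r).sd = r.sd := by
  unfold edel_md
  rcases memB y.id r.nb with _ | _
  · rw [cond_false]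
    rcases ((!(full y) || memB r.id y.nb) && xor r.sd y.sd && !(full r)) with _ | _
    · rfl
    · rfl
  · rfl

theorem edel_nb (h1 : ST_LST) (y r : Vx) (z : ℕ) :
    z ∈ (edel_md y r).nb ↔ z ∈ r.nb ∧ z ≠ y.id := by
  obtain ⟨hm, _, hr, _⟩ := h1
  unfold edel_md
  rcases hb : memB y.id r.nb with _ | _
  · have hn : y.id ∉ r.nb := fun hh => by
      rw [(hm _ _).mpr hh] at hb
      exact Bool.noConfusion hb
    have key : z ∈ r.nb ↔ z ∈ r.nb ∧ z ≠ y.id :=
      ⟨fun hz => ⟨hz, fun he => hn (he ▸ hz)⟩, fun hz => hz.1⟩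
    rw [cond_false]
    rcases ((!(full y) || memB r.id y.nb) && xor r.sd y.sd && !(full r)) with _ | _
    · exact key
    · exact key
  · exact hr _ _ _

theorem st_EDEL (h1 : ST_LST) (h2 : ST_FULL) : ST_EDEL := by
  intro G φ f K hE y hy
  have hN : ∀ x, x ≠ φ y.id → (del G (φ y.id)).N x = (G.N x).erase (φ y.id) := by
    intro x hx
    simp [del, hx]
  have hV : (del G (φ y.id)).V = G.V.erase (φ y.id) := rfl
  have hne : ∀ r ∈ K, r.id ≠ y.id → φ r.id ≠ φ y.id := fun r hr hn he => hn (hE.inj r hr y hy he)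
  have hnz : ∀ r ∈ K, ∀ z ∈ r.nb, z ≠ y.id → φ z ≠ φ y.id := by
    intro r hr z hz hn
    obtain ⟨q, hq, rfl⟩ := hE.cl r hr z hz
    exact hne q hq hn
  refine ⟨?_, ?_, ?_, ?_, ?_, ?_, ?_, ?_⟩
  · intro r' hr'
    obtain ⟨r, hr, hn, rfl⟩ := edel_mem y K r' hr'
    rw [edel_id, hV]
    exact mem_erase.mpr ⟨hne r hr hn, hE.memV r hr⟩
  · intro r' hr'
    obtain ⟨r, hr, hn, rfl⟩ := edel_mem y K r' hr'
    rw [edel_id, edel_sd]
    exact hE.sd r hr
  · intro r' hr'
    obtain ⟨r, hr, hn, rfl⟩ := edel_mem y K r' hr'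
    rw [edel_id, hN _ (hne r hr hn)]
    have hlo := hE.lo r hr
    obtain ⟨hnd, hlen, hfull⟩ := h2 G φ f K hE r hr
    unfold edel_md
    rcases hb : memB y.id r.nb with _ | _
    · have hyn : y.id ∉ r.nb := fun hh => by
        rw [(h1.1 _ _).mpr hh] at hb
        exact Bool.noConfusion hb
      rw [cond_false]
      by_cases hadj : φ y.id ∈ G.N (φ r.id)
      · have hfr : full r = false := by
          rcases hf : full r with _ | _
          · rfl
          · obtain ⟨z, hz, hzz⟩ := ((hfull hf).2.2 _).mp hadj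
            exfalso
            by_cases hzy : z = y.id
            · exact hyn (hzy ▸ hz)
            · exact hnz r hr z hz hzy hzz
        have hsd : xor r.sd y.sd = true := by
          have hb1 := G.bip _ _ hadj
          rw [hE.sd r hr, hE.sd y hy] at hb1
          revert hb1
          rcases r.sd with _ | _ <;> rcases y.sd with _ | _ <;> rcases f with _ | _ <;> simp
        have hyy : (!(full y) || memB r.id y.nb) = true := by
          rcases hf : full y with _ | _
          · rfl
          · obtain ⟨_, _, hfy⟩ := h2 G φ f K hE y hy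
            obtain ⟨z, hz, hzz⟩ := ((hfy hf).2.2 _).mp (G.symm _ _ hadj)
            obtain ⟨q, hq, hqz⟩ := hE.cl y hy z hz
            have hqr : q.id = r.id := hE.inj q hq r hr (by rw [hqz]; exact hzz)
            have : r.id ∈ y.nb := by rw [← hqr, hqz]; exact hz
            rw [(h1.1 _ _).mpr this]
            rfl
        rw [hyy, hsd, hfr]
        show max (r.lo - 1) (lenN r.nb) ≤ ((G.N (φ r.id)).erase (φ y.id)).card
        rw [h1.2.1]
        have hcard : ((G.N (φ r.id)).erase (φ y.id)).card = (G.N (φ r.id)).card - 1 :=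
          card_erase_of_mem hadj
        have hsub : (r.nb.map φ).toFinset ⊆ (G.N (φ r.id)).erase (φ y.id) := by
          intro x hx
          rw [List.mem_toFinset, List.mem_map] at hx
          obtain ⟨z, hz, rfl⟩ := hx
          refine mem_erase.mpr ⟨?_, hE.adj r hr z hz⟩
          exact hnz r hr z hz (fun he => hyn (he ▸ hz))
        have hle := card_le_card hsub
        rw [List.toFinset_card_of_nodup hnd, List.length_map] at hle
        refine max_le ?_ hle
        rw [hcard]
        omega
      · rw [erase_eq_of_notMem hadj]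
        rcases ((!(full y) || memB r.id y.nb) && xor r.sd y.sd && !(full r)) with _ | _
        · exact hlo
        · show max (r.lo - 1) (lenN r.nb) ≤ (G.N (φ r.id)).card
          rw [h1.2.1]
          exact max_le (by omega) hlen
    · rw [cond_true]
      have hyn : y.id ∈ r.nb := (h1.1 _ _).mp hb
      rw [card_erase_of_mem (hE.adj r hr _ hyn)]
      show r.lo - 1 ≤ _
      omega
  · intro r' hr'
    obtain ⟨r, hr, hn, rfl⟩ := edel_mem y K r' hr'
    rw [edel_id, hN _ (hne r hr hn)]
    have hhi := hE.hi r hr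
    have hle : ((G.N (φ r.id)).erase (φ y.id)).card ≤ (G.N (φ r.id)).card :=
      card_le_card (erase_subset _ _)
    unfold edel_md
    rcases hb : memB y.id r.nb with _ | _
    · rw [cond_false]
      rcases ((!(full y) || memB r.id y.nb) && xor r.sd y.sd && !(full r)) with _ | _
      · exact hle.trans hhi
      · exact hle.trans hhi
    · rw [cond_true]
      have hyn : y.id ∈ r.nb := (h1.1 _ _).mp hb
      rw [card_erase_of_mem (hE.adj r hr _ hyn)]
      show _ ≤ r.hi - 1
      omega
  · intro r' hr'
    obtain ⟨r, hr, hn, rfl⟩ := edel_mem y K r' hr'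
    have hnd := hE.nd r hr
    unfold edel_md
    rcases hb : memB y.id r.nb with _ | _
    · rw [cond_false]
      rcases ((!(full y) || memB r.id y.nb) && xor r.sd y.sd && !(full r)) with _ | _
      · exact hnd
      · exact hnd
    · exact h1.2.2.2.1 _ _ hnd
  · intro r' hr' z hz
    obtain ⟨r, hr, hn, rfl⟩ := edel_mem y K r' hr'
    rw [edel_nb h1] at hz
    rw [edel_id, hN _ (hne r hr hn)]
    exact mem_erase.mpr ⟨hnz r hr z hz.1 hz.2, hE.adj r hr z hz.1⟩
  · intro r' hr' z hz
    obtain ⟨r, hr, hn, rfl⟩ := edel_mem y K r' hr'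
    rw [edel_nb h1] at hz
    obtain ⟨q, hq, hqz⟩ := hE.cl r hr z hz.1
    exact ⟨edel_md y q, edel_mem' y K q hq (by rw [hqz]; exact hz.2), by rw [edel_id, hqz]⟩
  · intro r' hr' q' hq' he
    obtain ⟨r, hr, hn, rfl⟩ := edel_mem y K r' hr'
    obtain ⟨q, hq, hn2, rfl⟩ := edel_mem y K q' hq'
    rw [edel_id, edel_id] at he ⊢
    exact hE.inj r hr q hq he

end Pool.Agent.Helper76.PC
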